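import Mathlib
import Pool.Agent.Q43.MW.Shell

set_option autoImplicit false

/-!
# Integer points in thin shells around `k`-spheres with almost all coefficients

The smoothed numbers of integer points in shells of two different thicknesses are compared by their Fourier
integrals. Frequencies between the two scales are small in the mean over the coefficients (mean squares of
exponential sums over full ranges of integers), so they are small for almost all coefficients at all dyadic scales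
(Borel-Cantelli). For thick shells the numbers are volumes.
-/

namespace Pool.Agent.Results.MP_927be3_nt.AlmostAllShells

open MeasureTheory Filter

/-- the integer points `m` with `|l_1 |m_1| ^ k + ... + l_d |m_d| ^ k - r ^ k| ≤ η` -/
def shell {d : ℕ} (k : ℕ) (l : Fin d → ℝ) (η r : ℝ) : Set (Fin d → ℤ) :=
  {m | |(∑ i, l i * |(m i : ℝ)| ^ k) - r ^ k| ≤ η}

/-- the constant `(d / k) (l_1 ... l_d) ^ (-1 / k) (2 Γ(1 + 1 / k)) ^ d / Γ(1 + d / k)` -/
noncomputable def cst {d : ℕ} (k : ℕ) (l : Fin d → ℝ) : ℝ :=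
  (d : ℝ) / k * ((∏ i, l i ^ (-(k : ℝ)⁻¹)) * ((2 * Real.Gamma (1 / k + 1)) ^ d / Real.Gamma ((d : ℝ) / k + 1)))

/-- **Thin shells in dimension `2 k + 1`.**  Let `k ≥ 1` and `d ≥ 2 k + 1`. For almost all vectors of positive
coefficients and every `δ < d / (2 k) - 1` the number of the integer points in the shell of radius `r` and thickness
`η` is `2 η C r ^ (d - k) + O(η r ^ (d - k - κ))`, for some `κ > 0`, for ALL large `r` and all
`r ^ (-k δ) ≤ η ≤ 1`. -/
theorem result (k d : ℕ) (hk : 1 ≤ k) (hd : 2 * k + 1 ≤ d) :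
    ∀ᵐ l : Fin d → ℝ, (∀ i, 0 < l i) → ∀ δ : ℝ, δ < (d : ℝ) / (2 * k) - 1 →
      ∃ κ : ℝ, 0 < κ ∧ ∃ r₀ : ℝ, ∀ r : ℝ, r₀ ≤ r → ∀ η : ℝ, r ^ (-(k * δ)) ≤ η → η ≤ 1 →
        (shell k l η r).Finite ∧
          |((shell k l η r).ncard : ℝ) - 2 * η * cst k l * r ^ ((d : ℝ) - k)| ≤ η * r ^ ((d : ℝ) - k - κ) := by
  obtain ⟨n, rfl⟩ : ∃ n, d = n + 1 := ⟨d - 1, by omega⟩
  have hk0 : (0 : ℝ) < k := by exact_mod_cast (by omega : 0 < k)
  set σ : ℝ := ((n + 1 : ℕ) : ℝ) / k with hσ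
  set c : ℝ := σ / 2 - 1 with hc
  have hc0 : 0 < c := by
    have h1 : (2 : ℝ) * k + 1 ≤ ((n + 1 : ℕ) : ℝ) := by exact_mod_cast hd
    have h2 : 2 < σ := by
      rw [hσ, lt_div_iff₀ hk0]
      linarith
    linarith
  have h := Pool.Agent.Q43.MW.ae_of_boxes (n := n) (P := fun l q => Pool.Agent.Q43.MW.Asym k l (c - c / ((q : ℝ) + 1)))
    (fun a b ha hab _ q => Pool.Agent.Q43.MW.asym_box hk ha hab (by
      have : c / ((q : ℝ) + 1) ≤ c := div_le_self hc0.le (by
        have : (0 : ℝ) ≤ q := Nat.cast_nonneg q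
        linarith)
      linarith) (by
      have : 0 < c / ((q : ℝ) + 1) := by positivity
      linarith))
  filter_upwards [h] with l hl hpos δ hδ
  have hδ' : δ < c := by
    have : ((n + 1 : ℕ) : ℝ) / (2 * k) = σ / 2 := by rw [hσ]; field_simp
    linarith
  obtain ⟨q, hq⟩ := exists_nat_gt (c / (c - δ))
  obtain ⟨κ, hκ, y₀, hy₀, hmain⟩ := hl hpos q
  refine ⟨k * κ, by positivity, y₀, fun r hr η hη1 hη2 => ?_⟩
  have hr1 : 1 ≤ r := hy₀.trans hr
  have hr0 : 0 < r := by linarith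
  have hy : y₀ ≤ r ^ k := by
    calc y₀ ≤ r := hr
      _ = r ^ 1 := (pow_one r).symm
      _ ≤ r ^ k := pow_le_pow_right₀ hr1 hk
  have hpow : ∀ t : ℝ, (r ^ k) ^ t = r ^ (k * t) := by
    intro t
    rw [← Real.rpow_natCast, ← Real.rpow_mul hr0.le]
  have hη : (r ^ k) ^ (-(c - c / ((q : ℝ) + 1))) ≤ η := by
    refine le_trans ?_ hη1
    rw [hpow]
    refine Real.rpow_le_rpow_of_exponent_le hr1 ?_
    have h1 : 0 < c - δ := by linarith
    have h2 : c / ((q : ℝ) + 1) ≤ c - δ := by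
      rw [div_le_iff₀ (by positivity)]
      rw [div_lt_iff₀ h1] at hq
      nlinarith
    nlinarith
  obtain ⟨g1, g2⟩ := hmain (r ^ k) hy η hη hη2
  refine ⟨g1, ?_⟩
  have e1 : (k : ℝ) * (σ - 1) = ((n + 1 : ℕ) : ℝ) - k := by rw [hσ]; field_simp
  have e2 : (k : ℝ) * (σ - 1 - κ) = ((n + 1 : ℕ) : ℝ) - k - k * κ := by rw [← e1]; ring
  rw [hpow, hpow, ← hσ, e1, e2, Pool.Agent.Q43.MW.Vk_eq hk (by omega) hpos] at g2
  have e3 : 2 * η * (((∏ i, l i ^ (-(k : ℝ)⁻¹)) * ((2 * Real.Gamma (1 / k + 1)) ^ (n + 1) /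
      Real.Gamma (((n + 1 : ℕ) : ℝ) / k + 1))) * σ * r ^ (((n + 1 : ℕ) : ℝ) - k)) =
      2 * η * cst k l * r ^ (((n + 1 : ℕ) : ℝ) - k) := by
    unfold cst
    rw [← hσ]
    ring
  rw [e3] at g2
  exact g2

end Pool.Agent.Results.MP_927be3_nt.AlmostAllShells
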